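import Pool.Agent.H96.GN.FST

/-!
# Theorem G, row BST: the exceptional sets of the n-side
-/

set_option autoImplicit false

open MeasureTheory ProbabilityTheory Filter Topology Finset
open scoped ENNReal

namespace Pool.Agent.H96.GN

open Pool.Agent.H28.GN
open Pool.Agent.H67.AG (Inv Av)
open Pool.Agent.H28.LF (Xi shX wX)

/-- An antitone sequence which is bounded below is eventually almost constant. -/
lemma anti_stab {a : ℕ → ℝ} (h : Antitone a) (h0 : ∀ n, 0 ≤ a n) {δ : ℝ} (hδ : 0 < δ) :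
    ∃ k, ∀ s, k ≤ s → a k - a s ≤ δ := by
  have hbd : BddBelow (Set.range a) := ⟨0, by rintro _ ⟨n, rfl⟩; exact h0 n⟩
  have hlim := tendsto_atTop_ciInf h hbd
  have h1 : ∀ᶠ n in atTop, a n < (⨅ i, a i) + δ :=
    hlim.eventually (gt_mem_nhds (by linarith))
  obtain ⟨k, hk⟩ := eventually_atTop.1 h1
  refine ⟨k, fun s _ => ?_⟩
  have h2 := hk k le_rfl
  have h3 : (⨅ i, a i) ≤ a s := ciInf_le hbd s
  linarith

theorem pf_BST (hK : Pool.Agent.H40.AG.T_BK) (hM : T_MNX) (hB : T_BDG) : T_BST := by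
  intro u c J γ₀ PX hu hγ hP hPX
  have hm := dx_meas hB hu c J
  have hb := dx_abs hB hu c J
  have hstab : ∀ r : ℕ, ∃ k, ∀ s, k ≤ s →
      ∫ ξ, DX u c J k ξ ∂PX - ∫ ξ, DX u c J s ξ ∂PX ≤ γ₀ / (64 * 16 ^ r) := by
    intro r
    exact anti_stab (dx_anti hM hu c J PX hP hPX)
      (fun n => integral_nonneg (fun ξ => dx_nonneg hB hu c J n ξ)) (by positivity)
  choose k hk using hstab
  set E : ℕ → ℕ → Set Xi := fun r s =>
    {ξ | 1 / 4 ^ r < Dl shX (DX u c J (k r)) ξ - Dl shX (DX u c J s) ξ} with hE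
  have hEm : ∀ r s, MeasurableSet (E r s) := fun r s => measurableSet_lt measurable_const
    ((dl_meas shX (hm _) (hb _)).sub (dl_meas shX (hm _) (hb _)))
  have hEi : ∀ r s, shX ⁻¹' (E r s) = E r s := by
    intro r s
    ext ξ
    change 1 / 4 ^ r < Dl shX (DX u c J (k r)) (shX ξ) - Dl shX (DX u c J s) (shX ξ) ↔
      1 / 4 ^ r < Dl shX (DX u c J (k r)) ξ - Dl shX (DX u c J s) ξ
    rw [dl_inv shX (hb _), dl_inv shX (hb _)]
  refine ⟨k, fun r => ⋃ s ∈ Set.Ici (k r), E r s, ?_, ?_⟩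
  · intro r
    refine ⟨MeasurableSet.biUnion (Set.to_countable _) (fun s _ => hEm r s), ?_, ?_⟩
    · rw [Set.preimage_iUnion₂]
      exact Set.iUnion₂_congr (fun s _ => hEi r s)
    · intro ν hν hi hz s hs
      rw [← dl_int hK (hm (k r)) (hb (k r)) hi, ← dl_int hK (hm s) (hb s) hi,
        ← integral_sub (dl_integrable (hm _) (hb _)) (dl_integrable (hm _) (hb _))]
      have h1 : ν (⋃ s ∈ Set.Ici (k r), E r s) = 0 := by
        rw [measureReal_def, ENNReal.toReal_eq_zero_iff] at hz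
        exact hz.resolve_right (measure_ne_top _ _)
      have h2 : ν (E r s) = 0 := by
        apply measure_mono_null _ h1
        exact Set.subset_iUnion₂ (s := fun s (_ : s ∈ Set.Ici (k r)) => E r s) s hs
      have h3 : ∀ᵐ ξ ∂ν, ξ ∉ E r s := measure_eq_zero_iff_ae_notMem.1 h2
      calc ∫ ξ, (Dl shX (DX u c J (k r)) ξ - Dl shX (DX u c J s) ξ) ∂ν ≤
          ∫ _ξ, (1 / 4 ^ r : ℝ) ∂ν := by
            apply integral_mono_ae
              ((dl_integrable (hm _) (hb _)).sub (dl_integrable (hm _) (hb _)))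
              (integrable_const _)
            filter_upwards [h3] with ξ hξ
            exact not_lt.1 hξ
        _ = 1 / 4 ^ r := by simp
  · -- the mass
    intro r
    have hEp : ∀ s, k r ≤ s → PX.real (E r s) ≤ γ₀ / (64 * 4 ^ r) := by
      intro s hs
      have h1 : ∫ ξ, (Dl shX (DX u c J (k r)) ξ - Dl shX (DX u c J s) ξ) ∂PX ≤
          γ₀ / (64 * 16 ^ r) := by
        rw [integral_sub (dl_integrable (hm _) (hb _)) (dl_integrable (hm _) (hb _)),
          dl_int hK (hm (k r)) (hb (k r)) hPX, dl_int hK (hm s) (hb s) hPX]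
        exact hk r s hs
      have h2 : (1 / 4 ^ r : ℝ) * PX.real (E r s) ≤
          ∫ ξ, (Dl shX (DX u c J (k r)) ξ - Dl shX (DX u c J s) ξ) ∂PX := by
        have h3 : (1 / 4 ^ r : ℝ) * PX.real (E r s) =
            ∫ ξ, (E r s).indicator (fun _ => (1 / 4 ^ r : ℝ)) ξ ∂PX := by
          rw [integral_indicator_const _ (hEm r s), smul_eq_mul, mul_comm]
        rw [h3]
        apply integral_mono_ae ((integrable_const _).indicator (hEm r s))
          ((dl_integrable (hm _) (hb _)).sub (dl_integrable (hm _) (hb _)))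
        filter_upwards [dl_anti hK hM hB hu c J hPX] with ξ hξ
        by_cases h4 : ξ ∈ E r s
        · rw [Set.indicator_of_mem h4]
          exact le_of_lt h4
        · rw [Set.indicator_of_notMem h4]
          have := hξ (k r) s hs
          change 0 ≤ Dl shX (DX u c J (k r)) ξ - Dl shX (DX u c J s) ξ
          linarith
      have h5 : PX.real (E r s) ≤ 4 ^ r * (γ₀ / (64 * 16 ^ r)) := by
        have h6 : (1 / 4 ^ r : ℝ) * PX.real (E r s) ≤ γ₀ / (64 * 16 ^ r) := h2.trans h1
        have h7 : (0 : ℝ) < 4 ^ r := by positivity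
        calc PX.real (E r s) = 4 ^ r * ((1 / 4 ^ r : ℝ) * PX.real (E r s)) := by
              field_simp
          _ ≤ _ := by gcongr
      refine h5.trans (le_of_eq ?_)
      have h8 : (16 : ℝ) ^ r = 4 ^ r * 4 ^ r := by
        rw [← mul_pow]; norm_num
      rw [h8]
      field_simp
    -- finite unions
    have hG : ∀ n, PX (⋃ s ∈ Set.Icc (k r) (k r + n), E r s) ≤
        ENNReal.ofReal (γ₀ / (64 * 4 ^ r)) := by
      intro n
      have h1 : PX (⋃ s ∈ Set.Icc (k r) (k r + n), E r s) ≤ PX (E r (k r + n)) := by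
        apply measure_mono_ae
        filter_upwards [dl_anti hK hM hB hu c J hPX] with ξ hξ hn
        have hn' : ξ ∈ ⋃ s ∈ Set.Icc (k r) (k r + n), E r s := hn
        simp only [Set.mem_iUnion] at hn'
        obtain ⟨s, hs, h2⟩ := hn'
        have h3 := hξ s (k r + n) hs.2
        have h4 : 1 / 4 ^ r < Dl shX (DX u c J (k r)) ξ - Dl shX (DX u c J s) ξ := h2
        change 1 / 4 ^ r < Dl shX (DX u c J (k r)) ξ - Dl shX (DX u c J (k r + n)) ξ
        linarith
      refine h1.trans ?_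
      rw [← ENNReal.ofReal_toReal (measure_ne_top PX (E r (k r + n)))]
      exact ENNReal.ofReal_le_ofReal (hEp _ (by omega))
    have hmono : Monotone (fun n => ⋃ s ∈ Set.Icc (k r) (k r + n), E r s) := by
      intro n n' hnn
      apply Set.biUnion_subset_biUnion_left
      exact Set.Icc_subset_Icc_right (by omega)
    have hlim := tendsto_measure_iUnion_atTop (μ := PX) hmono
    have h3 : PX (⋃ n, ⋃ s ∈ Set.Icc (k r) (k r + n), E r s) ≤
        ENNReal.ofReal (γ₀ / (64 * 4 ^ r)) := le_of_tendsto' hlim hG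
    have h4 : (⋃ n, ⋃ s ∈ Set.Icc (k r) (k r + n), E r s) = ⋃ s ∈ Set.Ici (k r), E r s := by
      ext ξ
      simp only [Set.mem_iUnion]
      constructor
      · rintro ⟨n, s, hs, h⟩
        exact ⟨s, hs.1, h⟩
      · rintro ⟨s, hs, h⟩
        have hs' : k r ≤ s := hs
        exact ⟨s - k r, s, ⟨hs, by omega⟩, h⟩
    rw [h4] at h3
    exact ENNReal.toReal_le_of_le_ofReal (by positivity) h3

end Pool.Agent.H96.GN
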