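import Pool.Agent.H21.V.VFX

/-!
# Theorem G, rows FST and BST: the upper limit of the ergodic averages
-/

set_option autoImplicit false

open MeasureTheory ProbabilityTheory Filter Topology Finset
open scoped ENNReal

namespace Pool.Agent.H96.GN

open Pool.Agent.H67.AG (Inv Av)
open Pool.Agent.H21.V (FS fs_meas fs_inv fs_of_tendsto av_meas)

variable {Ω : Type} [MeasurableSpace Ω]

/-- The upper limit of the ergodic averages. -/
noncomputable def Dl (T : Ω ≃ᵐ Ω) (f : Ω → ℝ) (ω : Ω) : ℝ := sInf {c : ℝ | ω ∈ FS T f c}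

lemma av_abs (T : Ω ≃ᵐ Ω) {f : Ω → ℝ} (hf : ∀ ω, |f ω| ≤ 1) (n : ℕ) (ω : Ω) :
    |Av T 1 n f ω| ≤ 1 := by
  unfold Av
  rw [abs_div, Nat.abs_cast]
  rcases Nat.eq_zero_or_pos n with h | h
  · subst h; simp
  · rw [div_le_one (by exact_mod_cast h)]
    calc |∑ l ∈ range n, f (T^[1 * l] ω)| ≤ ∑ l ∈ range n, |f (T^[1 * l] ω)| :=
          Finset.abs_sum_le_sum_abs _ _
      _ ≤ ∑ _l ∈ range n, (1 : ℝ) := Finset.sum_le_sum (fun l _ => hf _)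
      _ = n := by simp

lemma fs_one (T : Ω ≃ᵐ Ω) {f : Ω → ℝ} (hf : ∀ ω, |f ω| ≤ 1) (ω : Ω) : ω ∈ FS T f 1 := by
  intro q hq
  refine ⟨0, fun K _ => ?_⟩
  have := (abs_le.1 (av_abs T hf K ω)).2
  linarith

lemma fs_lower (T : Ω ≃ᵐ Ω) {f : Ω → ℝ} (hf : ∀ ω, |f ω| ≤ 1) {ω : Ω} {c : ℝ}
    (h : ω ∈ FS T f c) : -1 ≤ c := by
  by_contra hc
  rw [not_le] at hc
  obtain ⟨q, h1, h2⟩ := exists_rat_btwn hc
  obtain ⟨N, hN⟩ := h q h1
  have h3 := hN N le_rfl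
  have := (abs_le.1 (av_abs T hf N ω)).1
  linarith

lemma dl_le_iff (T : Ω ≃ᵐ Ω) {f : Ω → ℝ} (hf : ∀ ω, |f ω| ≤ 1) {ω : Ω} {c : ℝ} :
    Dl T f ω ≤ c ↔ ω ∈ FS T f c := by
  constructor
  · intro h q hq
    have h1 : sInf {c : ℝ | ω ∈ FS T f c} < q := lt_of_le_of_lt h hq
    obtain ⟨c', h2, h3⟩ := exists_lt_of_csInf_lt ⟨1, fs_one T hf ω⟩ h1
    exact h2 q h3
  · intro h
    exact csInf_le ⟨-1, fun c' h' => fs_lower T hf h'⟩ h

lemma dl_meas (T : Ω ≃ᵐ Ω) {f : Ω → ℝ} (hf : Measurable f) (hb : ∀ ω, |f ω| ≤ 1) :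
    Measurable (Dl T f) := by
  refine measurable_of_Iic fun c => ?_
  have : Dl T f ⁻¹' Set.Iic c = FS T f c := by
    ext ω
    exact dl_le_iff T hb
  rw [this]
  exact fs_meas T hf c

lemma dl_inv (T : Ω ≃ᵐ Ω) {f : Ω → ℝ} (hb : ∀ ω, |f ω| ≤ 1) (ω : Ω) :
    Dl T f (T ω) = Dl T f ω := by
  have h : ∀ c, Dl T f (T ω) ≤ c ↔ Dl T f ω ≤ c := by
    intro c
    rw [dl_le_iff T hb, dl_le_iff T hb]
    have := fs_inv T hb c
    exact Set.ext_iff.1 this ω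
  exact le_antisymm ((h _).2 le_rfl) ((h _).1 le_rfl)

lemma dl_abs (T : Ω ≃ᵐ Ω) {f : Ω → ℝ} (hb : ∀ ω, |f ω| ≤ 1) (ω : Ω) : |Dl T f ω| ≤ 1 := by
  rw [abs_le]
  refine ⟨?_, (dl_le_iff T hb).2 (fs_one T hb ω)⟩
  exact fs_lower T hb ((dl_le_iff T hb).1 le_rfl)

lemma dl_of_tendsto (T : Ω ≃ᵐ Ω) {f : Ω → ℝ} (hb : ∀ ω, |f ω| ≤ 1) {a : ℝ} {ω : Ω}
    (h : Tendsto (fun n => Av T 1 n f ω) atTop (𝓝 a)) : Dl T f ω = a := by
  have h1 : ∀ c, Dl T f ω ≤ c ↔ a ≤ c := by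
    intro c
    rw [dl_le_iff T hb]
    exact fs_of_tendsto T h
  exact le_antisymm ((h1 _).2 le_rfl) ((h1 _).1 le_rfl)

/-- The upper limit is the conditional expectation. -/
lemma dl_ce (hB : Pool.Agent.H40.AG.T_BK) {T : Ω ≃ᵐ Ω} {f : Ω → ℝ} (hf : Measurable f)
    (hb : ∀ ω, |f ω| ≤ 1) {ν : Measure Ω} [IsProbabilityMeasure ν]
    (hν : MeasurePreserving T ν ν) : Dl T f =ᵐ[ν] (ν[f | Inv T 1]) := by
  filter_upwards [hB Ω ν T 1 f hν hf ⟨1, hb⟩] with ω hω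
  exact dl_of_tendsto T hb hω

lemma dl_integrable {T : Ω ≃ᵐ Ω} {f : Ω → ℝ} (hf : Measurable f)
    (hb : ∀ ω, |f ω| ≤ 1) {ν : Measure Ω} [IsProbabilityMeasure ν] : Integrable (Dl T f) ν :=
  Pool.Agent.H40.AG.bint (dl_meas T hf hb) ⟨1, dl_abs T hb⟩

lemma dl_int (hB : Pool.Agent.H40.AG.T_BK) {T : Ω ≃ᵐ Ω} {f : Ω → ℝ} (hf : Measurable f)
    (hb : ∀ ω, |f ω| ≤ 1) {ν : Measure Ω} [IsProbabilityMeasure ν]
    (hν : MeasurePreserving T ν ν) : ∫ ω, Dl T f ω ∂ν = ∫ ω, f ω ∂ν := by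
  rw [integral_congr_ae (dl_ce hB hf hb hν)]
  exact integral_condExp (Pool.Agent.H40.AG.inv_le T 1)

/-- Conditioning on an invariant set. -/
lemma cond_inv {T : Ω ≃ᵐ Ω} {ν : Measure Ω} [IsProbabilityMeasure ν]
    (hν : MeasurePreserving T ν ν) {A : Set Ω} (hA : MeasurableSet A) (hi : T ⁻¹' A = A) :
    MeasurePreserving T ((ν A)⁻¹ • ν.restrict A) ((ν A)⁻¹ • ν.restrict A) := by
  have h1 : MeasurePreserving T (ν.restrict A) (ν.restrict A) := by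
    have := hν.restrict_preimage hA
    rwa [hi] at this
  refine ⟨T.measurable, ?_⟩
  rw [Measure.map_smul, h1.map_eq]

/-- Comparison. -/
lemma dl_comp (hB : Pool.Agent.H40.AG.T_BK) {T : Ω ≃ᵐ Ω} {f g : Ω → ℝ} (hf : Measurable f)
    (hg : Measurable g) (hb : ∀ ω, |f ω| ≤ 1) (hb' : ∀ ω, |g ω| ≤ 1)
    (hfg : ∀ ν : Measure Ω, IsProbabilityMeasure ν → MeasurePreserving T ν ν →
      ∫ ω, g ω ∂ν ≤ ∫ ω, f ω ∂ν)
    {ν : Measure Ω} [IsProbabilityMeasure ν] (hν : MeasurePreserving T ν ν) :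
    ∀ᵐ ω ∂ν, Dl T g ω ≤ Dl T f ω := by
  set A : Set Ω := {ω | Dl T f ω < Dl T g ω} with hA
  have hAm : MeasurableSet A := measurableSet_lt (dl_meas T hf hb) (dl_meas T hg hb')
  have hAi : T ⁻¹' A = A := by
    ext ω
    change Dl T f (T ω) < Dl T g (T ω) ↔ Dl T f ω < Dl T g ω
    rw [dl_inv T hb, dl_inv T hb']
  have hzero : ν A = 0 := by
    by_contra hne
    set κ := (ν A)⁻¹ • ν.restrict A with hκ
    have hκp : IsProbabilityMeasure κ := by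
      constructor
      rw [hκ, Measure.smul_apply, Measure.restrict_apply_univ, smul_eq_mul]
      exact ENNReal.inv_mul_cancel hne (measure_ne_top _ _)
    have hκi : MeasurePreserving T κ κ := cond_inv hν hAm hAi
    have h1 := hfg κ hκp hκi
    rw [← dl_int hB hf hb hκi, ← dl_int hB hg hb' hκi] at h1
    have hae : ∀ᵐ ω ∂κ, ω ∈ A := by
      rw [hκ]
      exact Measure.ae_smul_measure (ae_restrict_mem hAm) _
    have h2 : ∫ ω, (Dl T g ω - Dl T f ω) ∂κ ≤ 0 := by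
      rw [integral_sub (dl_integrable hg hb') (dl_integrable hf hb)]
      linarith
    have h3 : 0 ≤ᵐ[κ] fun ω => Dl T g ω - Dl T f ω := by
      filter_upwards [hae] with ω hω
      have : Dl T f ω < Dl T g ω := hω
      change 0 ≤ Dl T g ω - Dl T f ω
      linarith
    have h4 : ∫ ω, (Dl T g ω - Dl T f ω) ∂κ = 0 :=
      le_antisymm h2 (integral_nonneg_of_ae h3)
    rw [integral_eq_zero_iff_of_nonneg_ae h3
      ((dl_integrable hg hb').sub (dl_integrable hf hb))] at h4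
    have h5 : ∀ᵐ ω ∂κ, False := by
      filter_upwards [h4, hae] with ω h6 h7
      have h8 : Dl T f ω < Dl T g ω := h7
      have h9 : Dl T g ω - Dl T f ω = 0 := h6
      linarith
    rw [ae_iff] at h5
    simp at h5
  rw [ae_iff]
  simpa using hzero

end Pool.Agent.H96.GN
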