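import Pool.Agent.H28.GN.T3
import Pool.Agent.H96.GN.DL

/-!
# Theorem G, row FST: the invariant set of the n-side
-/

set_option autoImplicit false

open MeasureTheory ProbabilityTheory Filter Topology Finset
open scoped ENNReal

namespace Pool.Agent.H96.GN

open Pool.Agent.H28.GN
open Pool.Agent.H67.AG (Inv Av)
open Pool.Agent.H28.LF (Xi shX wX)

lemma dx_meas (hB : T_BDG) {u : Bool × Bool → ℂ} (hu : ∀ b, ‖u b‖ = 1) (c J r : ℕ) :
    Measurable (DX u c J r) :=
  (hB u c J (2 ^ r) (2 ^ r) hu (by positivity) (by positivity)).2.2.1.measurable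

lemma dx_nonneg (hB : T_BDG) {u : Bool × Bool → ℂ} (hu : ∀ b, ‖u b‖ = 1) (c J r : ℕ) (ξ : Xi) :
    0 ≤ DX u c J r ξ :=
  ((hB u c J (2 ^ r) (2 ^ r) hu (by positivity) (by positivity)).1 _).1

lemma dx_le (hB : T_BDG) {u : Bool × Bool → ℂ} (hu : ∀ b, ‖u b‖ = 1) (c J r : ℕ) (ξ : Xi) :
    DX u c J r ξ ≤ 1 :=
  ((hB u c J (2 ^ r) (2 ^ r) hu (by positivity) (by positivity)).1 _).2

lemma dx_abs (hB : T_BDG) {u : Bool × Bool → ℂ} (hu : ∀ b, ‖u b‖ = 1) (c J r : ℕ) (ξ : Xi) :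
    |DX u c J r ξ| ≤ 1 := by
  rw [abs_le]
  have h1 := dx_nonneg hB hu c J r ξ
  exact ⟨by linarith, dx_le hB hu c J r ξ⟩

lemma dx_succ (hM : T_MNX) {u : Bool × Bool → ℂ} (hu : ∀ b, ‖u b‖ = 1) (c J r : ℕ)
    (ν : Measure Xi) (hν : IsProbabilityMeasure ν) (hi : MeasurePreserving shX ν ν) :
    ∫ ξ, DX u c J (r + 1) ξ ∂ν ≤ ∫ ξ, DX u c J r ξ ∂ν := by
  have h1 := (hM u c J (2 ^ r) (2 * 2 ^ r) 2 ν hu hν hi (by positivity) (by positivity)
    (by norm_num)).1
  have h2 := (hM u c J (2 ^ r) (2 ^ r) 2 ν hu hν hi (by positivity) (by positivity)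
    (by norm_num)).2
  unfold DX
  rw [pow_succ']
  exact h1.trans h2

lemma dx_anti (hM : T_MNX) {u : Bool × Bool → ℂ} (hu : ∀ b, ‖u b‖ = 1) (c J : ℕ)
    (ν : Measure Xi) (hν : IsProbabilityMeasure ν) (hi : MeasurePreserving shX ν ν) :
    Antitone (fun r => ∫ ξ, DX u c J r ξ ∂ν) :=
  antitone_nat_of_succ_le (fun r => dx_succ hM hu c J r ν hν hi)

/-- The upper limits decrease almost everywhere. -/
lemma dl_anti (hK : Pool.Agent.H40.AG.T_BK) (hM : T_MNX) (hB : T_BDG) {u : Bool × Bool → ℂ}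
    (hu : ∀ b, ‖u b‖ = 1) (c J : ℕ) {ν : Measure Xi} [IsProbabilityMeasure ν]
    (hi : MeasurePreserving shX ν ν) :
    ∀ᵐ ξ ∂ν, ∀ r s, r ≤ s → Dl shX (DX u c J s) ξ ≤ Dl shX (DX u c J r) ξ := by
  have h : ∀ᵐ ξ ∂ν, ∀ r, Dl shX (DX u c J (r + 1)) ξ ≤ Dl shX (DX u c J r) ξ := by
    rw [ae_all_iff]
    intro r
    exact dl_comp hK (dx_meas hB hu c J r) (dx_meas hB hu c J (r + 1)) (dx_abs hB hu c J r)
      (dx_abs hB hu c J (r + 1)) (fun ν' h1 h2 => dx_succ hM hu c J r ν' h1 h2) hi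
  filter_upwards [h] with ξ hξ r s hrs
  exact antitone_nat_of_succ_le (f := fun r => Dl shX (DX u c J r) ξ) hξ hrs

theorem pf_FST (hK : Pool.Agent.H40.AG.T_BK) (hM : T_MNX) (hB : T_BDG) : T_FST := by
  intro u c J ε PX hu hε hP hPX hint
  have hm := dx_meas hB hu c J
  have hb := dx_abs hB hu c J
  refine ⟨{ξ | ∀ r, ε / 2 ≤ Dl shX (DX u c J r) ξ}, ⟨?_, ?_, ?_⟩, ?_⟩
  · have : {ξ | ∀ r, ε / 2 ≤ Dl shX (DX u c J r) ξ} =
        ⋂ r, {ξ | ε / 2 ≤ Dl shX (DX u c J r) ξ} := by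
      ext ξ; simp
    rw [this]
    exact MeasurableSet.iInter fun r => measurableSet_le measurable_const
      (dl_meas shX (hm r) (hb r))
  · ext ξ
    change (∀ r, ε / 2 ≤ Dl shX (DX u c J r) (shX ξ)) ↔ ∀ r, ε / 2 ≤ Dl shX (DX u c J r) ξ
    refine forall_congr' fun r => ?_
    rw [dl_inv shX (hb r)]
  · intro ν hν hi hF r
    rw [← dl_int hK (hm r) (hb r) hi]
    have h1 : ∀ᵐ ξ ∂ν, ξ ∈ {ξ | ∀ r, ε / 2 ≤ Dl shX (DX u c J r) ξ} := by
      rw [measureReal_def, ← ENNReal.toReal_one] at hF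
      have hF' := (ENNReal.toReal_eq_toReal_iff' (measure_ne_top _ _) ENNReal.one_ne_top).1 hF
      have hms : MeasurableSet {ξ | ∀ r, ε / 2 ≤ Dl shX (DX u c J r) ξ} := by
        have : {ξ | ∀ r, ε / 2 ≤ Dl shX (DX u c J r) ξ} =
            ⋂ r, {ξ | ε / 2 ≤ Dl shX (DX u c J r) ξ} := by
          ext ξ; simp
        rw [this]
        exact MeasurableSet.iInter fun r => measurableSet_le measurable_const
          (dl_meas shX (hm r) (hb r))
      exact (mem_ae_iff_prob_eq_one hms).2 hF'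
    calc ε / 2 = ∫ _ξ, ε / 2 ∂ν := by simp
      _ ≤ ∫ ξ, Dl shX (DX u c J r) ξ ∂ν := by
          apply integral_mono_ae (integrable_const _) (dl_integrable (hm r) (hb r))
          filter_upwards [h1] with ξ hξ
          exact hξ r
  · -- the mass
    set E : ℕ → Set Xi := fun r => {ξ | ε / 2 ≤ Dl shX (DX u c J r) ξ} with hE
    have hEm : ∀ r, MeasurableSet (E r) := fun r => measurableSet_le measurable_const
      (dl_meas shX (hm r) (hb r))
    have hEp : ∀ r, ε / 2 ≤ PX.real (E r) := by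
      intro r
      have h1 : ε ≤ ∫ ξ, Dl shX (DX u c J r) ξ ∂PX := by
        rw [dl_int hK (hm r) (hb r) hPX]
        exact hint r
      have h2 : ∫ ξ, Dl shX (DX u c J r) ξ ∂PX ≤
          ∫ ξ, ((E r).indicator (fun _ => (1 : ℝ)) ξ + ε / 2) ∂PX := by
        apply integral_mono (dl_integrable (hm r) (hb r))
        · exact (((integrable_const (1 : ℝ)).indicator (hEm r)).add (integrable_const _))
        · intro ξ
          by_cases hξ : ξ ∈ E r
          · change Dl shX (DX u c J r) ξ ≤ (E r).indicator (fun _ => (1 : ℝ)) ξ + ε / 2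
            rw [Set.indicator_of_mem hξ]
            have := (abs_le.1 (dl_abs shX (hb r) ξ)).2
            linarith
          · change Dl shX (DX u c J r) ξ ≤ (E r).indicator (fun _ => (1 : ℝ)) ξ + ε / 2
            rw [Set.indicator_of_notMem hξ]
            have h3 : ¬ (ε / 2 ≤ Dl shX (DX u c J r) ξ) := hξ
            linarith
      have h3 : ∫ ξ, ((E r).indicator (fun _ => (1 : ℝ)) ξ + ε / 2) ∂PX =
          PX.real (E r) + ε / 2 := by
        rw [integral_add ((integrable_const (1 : ℝ)).indicator (hEm r)) (integrable_const _),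
          integral_indicator_const _ (hEm r)]
        simp
      linarith
    -- finite intersections
    have hG : ∀ n, ENNReal.ofReal (ε / 2) ≤ PX (⋂ r ∈ Set.Iic n, E r) := by
      intro n
      have h1 : PX (E n) ≤ PX (⋂ r ∈ Set.Iic n, E r) := by
        apply measure_mono_ae
        filter_upwards [dl_anti hK hM hB hu c J hPX] with ξ hξ hn
        change ξ ∈ ⋂ r ∈ Set.Iic n, E r
        simp only [Set.mem_iInter]
        intro r hr
        have h2 : ε / 2 ≤ Dl shX (DX u c J n) ξ := hn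
        exact h2.trans (hξ r n hr)
      refine le_trans ?_ h1
      exact ENNReal.ofReal_le_of_le_toReal (hEp n)
    have hanti : Antitone (fun n => ⋂ r ∈ Set.Iic n, E r) := by
      intro n n' hnn
      exact Set.biInter_subset_biInter_left (Set.Iic_subset_Iic.2 hnn)
    have hlim := tendsto_measure_iInter_atTop (μ := PX)
      (fun n => (MeasurableSet.biInter (Set.to_countable (Set.Iic n))
        (fun r _ => hEm r)).nullMeasurableSet) hanti ⟨0, measure_ne_top _ _⟩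
    have h3 : ENNReal.ofReal (ε / 2) ≤ PX (⋂ n, ⋂ r ∈ Set.Iic n, E r) := ge_of_tendsto' hlim hG
    have h4 : (⋂ n, ⋂ r ∈ Set.Iic n, E r) = {ξ | ∀ r, ε / 2 ≤ Dl shX (DX u c J r) ξ} := by
      ext ξ
      simp only [Set.mem_iInter]
      constructor
      · intro h r
        exact h r r (Set.mem_Iic.2 le_rfl)
      · intro h n r _
        exact h r
    rw [h4] at h3
    exact (ENNReal.ofReal_le_iff_le_toReal (measure_ne_top _ _)).1 h3

end Pool.Agent.H96.GN
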