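import Pool.Agent.H28.GN.T3
import Pool.Agent.H84.LF.RLY
import Pool.Agent.H96.LF.THC

/-!
# Theorem G, row RLG: the bad words on average over the primes of a good scale
-/

set_option autoImplicit false

open MeasureTheory ProbabilityTheory Filter Topology Finset
open scoped Nat ENNReal

namespace Pool.Agent.H96.GN

open Pool.Agent.H28.GN
open Pool.Agent.H24.T2 (Pset)
open Pool.Agent.H67.AG (avgP Inv Av)
open Pool.Agent.H28.LF (Wd Xi Yi shX shY btY flY xiY CompY ExY Wa DcO sY GoodC Um wX Ix ng)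
open Pool.Agent.H84.LF (avgP_add avgP_mul avgP_const avgP_mono avgP_sum avgP_ind)

lemma tn_inj {J c b H : ℕ} : Function.Injective (tn : PtG J c b H → (Fin J → Bool → ℕ)) := by
  intro t t' h
  apply Subtype.ext
  funext j e
  have := congrFun (congrFun h j) e
  exact Fin.ext this

lemma tn_mem {J c b H : ℕ} (t : PtG J c b H) : tn t ∈ Bx J H := by
  unfold Bx
  rw [Fintype.mem_piFinset]
  intro j
  rw [Fintype.mem_piFinset]
  intro e
  exact Finset.mem_range.2 (t.1 j e).2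

lemma sum_ptG {J c b H : ℕ} (g : (Fin J → Bool → ℕ) → ℝ) (hg : ∀ t, 0 ≤ g t) :
    ∑ t : PtG J c b H, g (tn t) ≤ ∑ t ∈ Bx J H, g t := by
  classical
  have h1 : ∑ t : PtG J c b H, g (tn t) = ∑ x ∈ univ.image (tn : PtG J c b H → _), g x :=
    (Finset.sum_image (fun t _ t' _ h => tn_inj h)).symm
  rw [h1]
  apply Finset.sum_le_sum_of_subset_of_nonneg
  · intro x hx
    obtain ⟨t, -, rfl⟩ := Finset.mem_image.1 hx
    exact tn_mem t
  · intro x _ _
    exact hg x

/-- The means of one component: nonnegative defects. -/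
lemma defect_nonneg (hE : T_MEG) {J : ℕ} {u : Bool × Bool → ℂ} (hu : ∀ b, ‖u b‖ = 1) (c : ℕ)
    (t : Fin J → Bool → ℕ) {κ : Measure Xi} (h1 : IsProbabilityMeasure κ) (h2 : Ergodic shX κ)
    {Q : ℕ} (hQ : 0 < Q) :
    0 ≤ ∫ ξ, ‖mm u Q (bl c t (wX ξ)) 0‖ ^ 2 ∂κ - qT u c t κ := by
  obtain ⟨-, m, -, -, -, h3⟩ := hE J u c t κ hu h1 h2
  rw [← h3 Q hQ]
  exact integral_nonneg fun ξ => by positivity

open Classical in
/-- One prime outside of the exceptional set of the decoupling. -/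
lemma one_prime (hW : T_BDW) (hQ : T_AVQ) (hN : T_NUP) (hE : T_MEG)
    {u : Bool × Bool → ℂ} {ix : Bool × Bool → Fin 4} {c J r s i p : ℕ} {α z : ℝ}
    {F : Set Xi} {k : ℕ → ℕ} {B : ℕ → Set Xi} {ν : Measure Yi}
    [Nonempty (PtG J c (3 * 2 ^ k r + 2 ^ k r) (2 ^ s))] (hu : Um u) (hix : Ix u ix)
    (hc : CompY ν) (hB : BpX u c J k B) (hα : 0 < α) (hz : 0 < z) (hzα : z ≤ Real.sqrt α)
    (hks : k r ≤ s)
    (hcard : ((2 : ℝ) ^ s) ^ (2 * J) ≤
      2 * Fintype.card (PtG J c (3 * 2 ^ k r + 2 ^ k r) (2 ^ s)))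
    (hi : c * J * 2 ^ s + (3 * 2 ^ k r + 2 ^ k r) ≤ i) (hp : p.Prime)
    (hdec : ∀ G : Set (Fin i → Bool × Bool), ν.real {ω | Wa shY btY i p ω ∈ G} ≤
      10 * (p * ν.real (flY p ∩ {ω | Wa shY btY i p ω ∈ G})) + 1 / ((i : ℝ) + 1)) :
    (∑ t : PtG J c (3 * 2 ^ k r + 2 ^ k r) (2 ^ s), sG u α F ν t p *
      ν.real {ω | Wd shY (aG ix) (c * J * 2 ^ s + (3 * 2 ^ k r + 2 ^ k r)) p ω ∈
        Lft (po t) (BadG J u ix (Real.sqrt α / 2) z (2 ^ k r) (3 * 2 ^ k r))}) /
      Fintype.card (PtG J c (3 * 2 ^ k r + 2 ^ k r) (2 ^ s)) ≤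
    160 / (z ^ 2 * 4 ^ r) + 10 * (p * ν.real (flY p ∩ xiY p ⁻¹' (B r))) +
      (∑ j ∈ Icc 1 (c * J * 2 ^ s + (3 * 2 ^ k r + 2 ^ k r)),
        10 * (p * ν.real (flY p ∩ ExY p j))) + 1 / ((i : ℝ) + 1) := by
  have hprob := hc.prob
  set b := 3 * 2 ^ k r + 2 ^ k r with hb
  set H := 2 ^ s with hH
  set card : ℝ := ((Fintype.card (PtG J c b H) : ℕ) : ℝ) with hcd
  have hcard0 : 0 < card := by
    rw [hcd]
    exact_mod_cast Fintype.card_pos
  obtain ⟨hκ, herg, hlaw, -⟩ := hN ν p hc hp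
  set κ := nuP p ν with hκd
  set N : PtG J c b H → ℝ := fun t => ν.real {ω | Wd shY (aG ix) (c * J * H + b) p ω ∈
    Lft (po t) (BadG J u ix (Real.sqrt α / 2) z (2 ^ k r) (3 * 2 ^ k r))} with hNd
  have hN1 : ∀ t, N t ≤ 1 := fun t => measureReal_le_one
  have hN0 : ∀ t, 0 ≤ N t := fun t => measureReal_nonneg
  have hs0 : ∀ t : PtG J c b H, 0 ≤ sG u α F ν t p ∧ sG u α F ν t p ≤ 1 := by
    intro t
    unfold sG
    split_ifs <;> norm_num
  have hi0 : (0 : ℝ) < (i : ℝ) + 1 := by positivity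
  have hp0 : (0 : ℝ) ≤ p := Nat.cast_nonneg p
  set Ex : ℝ := ∑ j ∈ Icc 1 (c * J * H + b), 10 * (p * ν.real (flY p ∩ ExY p j)) with hEx
  have hEx0 : 0 ≤ Ex := sum_nonneg fun j _ => by positivity
  have hBr := hB r
  rcases herg.toPreErgodic.prob_eq_zero_or_one hBr.1 hBr.2.1 with h0 | h1
  · -- the component is good
    have hz0 : κ.real (B r) = 0 := by
      rw [measureReal_def, h0]; simp
    have hδ := (hQ u c J s κ hu.1 hκ herg).2.2 (1 / 4 ^ r) (k r) hks
      (fun r' hr' => hBr.2.2 κ hκ herg.toMeasurePreserving hz0 r' hr')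
    set g : (Fin J → Bool → ℕ) → ℝ := fun t =>
      ∫ ξ, ‖mm u (2 ^ k r) (bl c t (wX ξ)) 0‖ ^ 2 ∂κ - qT u c t κ with hg
    have hg0 : ∀ t, 0 ≤ g t := fun t => defect_nonneg hE hu.1 c t hκ herg (by positivity)
    have hterm : ∀ t : PtG J c b H, sG u α F ν t p * N t ≤
        80 / z ^ 2 * g (tn t) + (Ex + 1 / ((i : ℝ) + 1)) := by
      intro t
      have hrhs : 0 ≤ 80 / z ^ 2 * g (tn t) + (Ex + 1 / ((i : ℝ) + 1)) := by
        have := hg0 (tn t)
        positivity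
      by_cases hfl : ν.real (xiY p ⁻¹' F) = 1 ∧ α ≤ qT u c (tn t) (nuP p ν)
      · have e1 : sG u α F ν t p = 1 := by
          unfold sG
          rw [if_pos hfl]
        rw [e1, one_mul]
        have h4 := hW u ix c J (2 ^ k r) (3 * 2 ^ k r) H p α z ν t hu.1 hix hc hp (by positivity)
          hα hz hzα hfl.2
        set G : Set (Fin i → Bool × Bool) := {v | (fun k' : Fin (c * J * H + b) =>
          ix (ng (v ⟨k', lt_of_lt_of_le k'.2 hi⟩))) ∈
          Lft (po t) (BadG J u ix (Real.sqrt α / 2) z (2 ^ k r) (3 * 2 ^ k r))} with hGd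
        have h5 : {ω : Yi | Wa shY btY i p ω ∈ G} = {ω : Yi | Wd shY (aG ix) (c * J * H + b) p ω ∈
          Lft (po t) (BadG J u ix (Real.sqrt α / 2) z (2 ^ k r) (3 * 2 ^ k r))} := rfl
        have h6 := hdec G
        rw [h5] at h6
        refine h6.trans ?_
        have h7 : 10 * (8 / z ^ 2 * g (tn t) + ∑ j ∈ Icc 1 (c * J * H + b),
            p * ν.real (flY p ∩ ExY p j)) = 80 / z ^ 2 * g (tn t) + Ex := by
          have e2 : Ex = 10 * ∑ j ∈ Icc 1 (c * J * H + b), p * ν.real (flY p ∩ ExY p j) := by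
            rw [hEx, Finset.mul_sum]
          rw [e2]
          ring
        have h8 := mul_le_mul_of_nonneg_left h4 (show (0 : ℝ) ≤ 10 by norm_num)
        have h9 := h8.trans_eq h7
        linarith
      · have e1 : sG u α F ν t p = 0 := by
          unfold sG
          rw [if_neg hfl]
        rw [e1, zero_mul]
        exact hrhs
    have hsum : ∑ t : PtG J c b H, sG u α F ν t p * N t ≤
        80 / z ^ 2 * (1 / 4 ^ r * ((2 : ℝ) ^ s) ^ (2 * J)) + card * (Ex + 1 / ((i : ℝ) + 1)) := by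
      calc ∑ t : PtG J c b H, sG u α F ν t p * N t ≤
          ∑ t : PtG J c b H, (80 / z ^ 2 * g (tn t) + (Ex + 1 / ((i : ℝ) + 1))) :=
            Finset.sum_le_sum fun t _ => hterm t
        _ = 80 / z ^ 2 * (∑ t : PtG J c b H, g (tn t)) + card * (Ex + 1 / ((i : ℝ) + 1)) := by
            rw [Finset.sum_add_distrib, ← Finset.mul_sum, Finset.sum_const, Finset.card_univ,
              nsmul_eq_mul]
        _ ≤ _ := by
            gcongr
            exact (sum_ptG g hg0).trans hδ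
    rw [div_le_iff₀ hcard0]
    refine hsum.trans ?_
    have h10 : 80 / z ^ 2 * (1 / 4 ^ r * ((2 : ℝ) ^ s) ^ (2 * J)) ≤
        160 / (z ^ 2 * 4 ^ r) * card := by
      calc 80 / z ^ 2 * (1 / 4 ^ r * ((2 : ℝ) ^ s) ^ (2 * J)) ≤
          80 / z ^ 2 * (1 / 4 ^ r * (2 * card)) := by gcongr
        _ = 160 / (z ^ 2 * 4 ^ r) * card := by
            field_simp
            ring
    have h11 : 0 ≤ 10 * (p * ν.real (flY p ∩ xiY p ⁻¹' (B r))) := by positivity
    nlinarith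
  · -- the component is bad
    have h2 : p * ν.real (flY p ∩ xiY p ⁻¹' (B r)) = 1 := by
      rw [← hlaw (B r) hBr.1, measureReal_def, h1]
      simp
    have h3 : (∑ t : PtG J c b H, sG u α F ν t p * N t) / card ≤ 1 := by
      rw [div_le_one hcard0]
      calc ∑ t : PtG J c b H, sG u α F ν t p * N t ≤ ∑ _t : PtG J c b H, (1 : ℝ) := by
            apply Finset.sum_le_sum
            intro t _
            calc sG u α F ν t p * N t ≤ 1 * 1 := by
                  apply mul_le_mul (hs0 t).2 (hN1 t) (hN0 t) (by norm_num)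
              _ = 1 := by ring
        _ = card := by
            rw [Finset.sum_const, Finset.card_univ, nsmul_eq_mul, mul_one]
    rw [h2]
    have h4 : 0 ≤ 160 / (z ^ 2 * 4 ^ r) := by positivity
    have h5 : 0 ≤ 1 / ((i : ℝ) + 1) := by positivity
    linarith

open Classical in
theorem pf_RLG (hW : T_BDW) (hQ : T_AVQ) (hN : T_NUP) (hE : T_MEG) : T_RLG := by
  intro u ix c J r s i m α z γ₀ F k B ν _ hu hix hc hF hFi hB hα hz hzα hks hcard hi hg
  have hprob := hc.prob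
  obtain ⟨X, hX, hdec⟩ := hg.dec
  have hi0 : (0 : ℝ) < (i : ℝ) + 1 := by positivity
  set b := 3 * 2 ^ k r + 2 ^ k r with hb
  set card : ℝ := ((Fintype.card (PtG J c b (2 ^ s)) : ℕ) : ℝ) with hcd
  have hcard0 : 0 < card := by
    rw [hcd]
    exact_mod_cast Fintype.card_pos
  have key : ∀ p ∈ Pset 2 m, (∑ t : PtG J c b (2 ^ s), sG u α F ν t p *
      ν.real {ω | Wd shY (aG ix) (c * J * 2 ^ s + b) p ω ∈
        Lft (po t) (BadG J u ix (Real.sqrt α / 2) z (2 ^ k r) (3 * 2 ^ k r))}) / card ≤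
      ((160 / (z ^ 2 * 4 ^ r) + 10 * (p * ν.real (flY p ∩ xiY p ⁻¹' (B r)))) +
        ∑ j ∈ Icc 1 (c * J * 2 ^ s + b), 10 * (p * ν.real (flY p ∩ ExY p j))) +
      (1 / ((i : ℝ) + 1) + if p ∈ X then (1 : ℝ) else 0) := by
    intro p hp
    have hpp : p.Prime := (mem_filter.1 hp).2.1
    have hp0 : (0 : ℝ) ≤ (p : ℝ) := Nat.cast_nonneg p
    by_cases hpX : p ∈ X
    · rw [if_pos hpX]
      have h3 : (∑ t : PtG J c b (2 ^ s), sG u α F ν t p *
          ν.real {ω | Wd shY (aG ix) (c * J * 2 ^ s + b) p ω ∈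
          Lft (po t) (BadG J u ix (Real.sqrt α / 2) z (2 ^ k r) (3 * 2 ^ k r))}) / card ≤ 1 := by
        rw [div_le_one hcard0]
        calc _ ≤ ∑ _t : PtG J c b (2 ^ s), (1 : ℝ) := by
              apply Finset.sum_le_sum
              intro t _
              have h4 : sG u α F ν t p ≤ 1 := by
                unfold sG
                split_ifs <;> norm_num
              calc _ ≤ (1 : ℝ) * 1 :=
                    mul_le_mul h4 measureReal_le_one measureReal_nonneg (by norm_num)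
                _ = 1 := by ring
          _ = card := by
              rw [Finset.sum_const, Finset.card_univ, nsmul_eq_mul, mul_one]
      have h5 : 0 ≤ ∑ j ∈ Icc 1 (c * J * 2 ^ s + b), 10 * (p * ν.real (flY p ∩ ExY p j)) :=
        sum_nonneg fun j _ => by positivity
      have h6 : 0 ≤ 160 / (z ^ 2 * 4 ^ r) + 10 * (p * ν.real (flY p ∩ xiY p ⁻¹' (B r))) := by
        positivity
      have h7 : 0 ≤ 1 / ((i : ℝ) + 1) := by positivity
      linarith
    · rw [if_neg hpX, add_zero]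
      exact one_prime hW hQ hN hE hu hix hc hB hα hz hzα hks hcard hi hpp (hdec p hp hpX)
  refine (avgP_mono m key).trans ?_
  rw [avgP_add, avgP_add, avgP_add, avgP_add, avgP_mul, avgP_sum, avgP_const m hg.ne,
    avgP_const m hg.ne]
  have h1 := hg.bad r
  have h2 := avgP_ind m X _ hX hg.ne
  have h3 : ∑ j ∈ Icc 1 (c * J * 2 ^ s + b),
      avgP 2 m (fun p => 10 * (p * ν.real (flY p ∩ ExY p j))) ≤ 10 / ((i : ℝ) + 1) := by
    have h4 : ∀ j ∈ Icc 1 (c * J * 2 ^ s + b),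
        avgP 2 m (fun p => 10 * (p * ν.real (flY p ∩ ExY p j))) ≤
        10 * (1 / ((i : ℝ) + 1) ^ 2) := by
      intro j hj
      rw [avgP_mul]
      have hj' := mem_Icc.1 hj
      exact mul_le_mul_of_nonneg_left (hg.exc j (by omega) (by omega)) (by norm_num)
    refine (sum_le_sum h4).trans ?_
    rw [sum_const, nsmul_eq_mul, Nat.card_Icc]
    have h5 : ((c * J * 2 ^ s + b + 1 - 1 : ℕ) : ℝ) ≤ (i : ℝ) + 1 := by
      have : c * J * 2 ^ s + b + 1 - 1 ≤ i + 1 := by omega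
      exact_mod_cast this
    calc ((c * J * 2 ^ s + b + 1 - 1 : ℕ) : ℝ) * (10 * (1 / ((i : ℝ) + 1) ^ 2))
        ≤ ((i : ℝ) + 1) * (10 * (1 / ((i : ℝ) + 1) ^ 2)) :=
          mul_le_mul_of_nonneg_right h5 (by positivity)
      _ = 10 / ((i : ℝ) + 1) := by field_simp
  have h8 : (12 : ℝ) / ((i : ℝ) + 1) = 10 / ((i : ℝ) + 1) + (1 / ((i : ℝ) + 1) +
      1 / ((i : ℝ) + 1)) := by ring
  have h9 : (10 : ℝ) / 2 ^ r = 10 * (1 / 2 ^ r) := by ring
  rw [h8, h9]
  have h10 : 10 * avgP 2 m (fun p => p * ν.real (flY p ∩ xiY p ⁻¹' (B r))) ≤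
      10 * (1 / 2 ^ r) := mul_le_mul_of_nonneg_left h1 (by norm_num)
  linarith

end Pool.Agent.H96.GN
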